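import Pool.Agent.Helper99.NQ.Defs
import Pool.Agent.Helper96.PH.Defs

/-!
# Nondeterministic programs of bounded length which query single symbols: definitions

Inputs as in `Helper99.NQ`: `I : B × Word D m B → F`. The symbol at the place `0` of a block does not change its word.
The result is the sum of the symbols at the place `0` of the blocks given by the letters of row `R`.
-/

namespace Pool.Agent.Helper43.NK

open Finset Pool.Agent.Helper99.NQ
open Pool.Agent.Helper74.NW (NProg)
open Pool.Agent.Helper19.NF (val)
open Pool.Agent.Helper74.NE (fine fine_apply)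

section defs

variable {n D m d S : ℕ} [NeZero m] {F B Z : Type} [Field F] [AddCommGroup B] [Module F B] [Fintype B]

/-- The result. -/
noncomputable def out (g : Fin D → Equiv.Perm (Fin n)) (x0 : Fin n × Fin m → B) (R : ℕ)
    (I : B × Word D m B → F) : F := ∑ v, I (val (fine g) x0 (tab I) R v, 0)

/-- The type of an input: for every `l` a run from the state `σ l` to the state `σ (l + 1)` in which, for all nodes
`u ∈ V` of row `R + 1`, the block of the letter `pos g (τ l) u` of row `R` has at least `h` symbols which are not read. -/
def InT (P : NProg (B × Word D m B) F Z S) (g : Fin D → Equiv.Perm (Fin n)) (x0 : Fin n × Fin m → B)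
    (h R : ℕ) {w : ℕ} (σ : Fin (w + 2) → Fin S) (V : Finset (Fin n)) (τ : Fin (w + 1) → Fin n → Fin D × Fin m)
    (I : B × Word D m B → F) : Prop :=
  ∀ l : Fin (w + 1), ∃ c, P.Run I (σ l.castSucc) c (σ l.succ) ∧
    ∀ u ∈ V, h ≤ gap (free c) (val (fine g) x0 (tab I) R (pos g (τ l) u))

/-- The changes of the blocks of the letters of a row at the places different from `0`. -/
abbrev Ch0 (n D m : ℕ) (F B : Type) [AddCommGroup B] := Fin n × Fin m → {l : Word D m B // l ≠ 0} → F

open Classical in
/-- As a change. -/
noncomputable def emb : Ch0 n D m F B →+ Ch n D m F B where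
  toFun x := fun p l => if h : l ≠ 0 then x p ⟨l, h⟩ else 0
  map_zero' := by
    funext p l
    by_cases h : l = 0 <;> simp [h]
  map_add' x x' := by
    funext p l
    by_cases h : l = 0 <;> simp [h]

/-- The part at the places different from `0`. -/
def rst : Ch n D m F B →+ Ch0 n D m F B where
  toFun x := fun p l => x p l.1
  map_zero' := rfl
  map_add' _ _ := rfl

end defs

/-! ## Abstract changes -/

section abs

variable {n D m d w : ℕ} {F B W X : Type} [Field F] [AddCommGroup B] [Module F B] [AddCommGroup X]

open Classical in
/-- The nodes with at least two changes. -/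
noncomputable def supp2 (e : Fin n → Fin d → F) : Finset (Fin n) :=
  univ.filter (fun u => ∃ i j, i ≠ j ∧ e u i ≠ 0 ∧ e u j ≠ 0)

/-- The setting of the game: `Dl l b e` changes the places `b u j` of the holes of direction `l` by `e u j`; `lx` is the
change of the letters of the next row; the letter `v` uses the components `c ∈ cs l u v` of the hole of `u`, and the
component `own l u t` is used by the letter `(u, t)` only. -/
structure Setting (Dl : Fin (w + 1) → (Fin n → Fin d → Word D m B) → ((Fin n → Fin d → F) →+ X))
    (lx : X →+ (Fin n × Fin m → B)) (cs : Fin (w + 1) → Fin n → Fin n × Fin m → Finset (Fin D × Fin m))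
    (own : Fin (w + 1) → Fin n → Fin m → Fin D × Fin m) : Prop where
  lam : ∀ l b e v, lx (Dl l b e) v = ∑ u, ∑ j, ∑ c ∈ cs l u v, e u j • b u j c
  own : ∀ l u t v, own l u t ∈ cs l u v ↔ v = (u, t)

end abs

end Pool.Agent.Helper43.NK
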