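import Pool.Agent.Helper43.NK.Par
import Pool.Agent.Helper78.NK.Rec

/-!
# Frame of NK: the statements of the pieces (this file contains `sorry` and is not imported by anything)
-/

namespace Pool.Agent.Helper43.NK.Frame

open Finset Pool.Agent.Helper19.NF Pool.Agent.Helper74.NW Pool.Agent.Helper99.NQ Pool.Agent.Helper43.NK
open Pool.Agent.Helper74.NE (fine fine_apply)
open Pool.Agent.Helper96.PH (CB)

/-! ## (B2) helper43: the game. For fixed `e` the configurations are a cylinder intersection of `2 (w + 1)` players. -/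

open Classical in
theorem game {n D m d w : ℕ} {F B G X : Type} [Field F] [Fintype F] [AddCommGroup B] [Module F B] [Fintype B]
    [AddCommGroup G] [Fintype G] (hG : 2 ≤ Fintype.card G) [AddCommGroup X] [Fintype X]
    (Dl : Fin (w + 1) → (Fin n → Fin d → Word D m B) → ((Fin n → Fin d → F) →+ X))
    (lx : X →+ (Fin n × Fin m → B)) (cs : Fin (w + 1) → Fin n → Fin n × Fin m → Finset (Fin D × Fin m))
    (own : Fin (w + 1) → Fin n → Fin m → Fin D × Fin m) (hS : Setting Dl lx cs own)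
    (U : Fin (w + 1) → X → Fin n → Finset (Word D m B)) (E : Finset X) (t0 : Fin n × Fin m → B) (γ : B → G) (a : G)
    (K0 : Fin (w + 1) → Finset (Fin n)) (e : Fin (w + 1) → Fin n → Fin d → F) (K : Finset (Fin n))
    (hK : ∀ l, K ⊆ supp2 (e l))
    (hcl : ∀ (x : X) (b : Fin (w + 1) → Fin n → Fin d → Word D m B), (∀ l, x - Dl l (b l) (e l) ∈ E ∧
      Unread (U l) (x - Dl l (b l) (e l)) (K0 l) (b l)) → ∑ v, γ (t0 v + lx x v) = a)
    {ε : ℝ} (hCB : CB γ (K × Fin m) (2 * w + 1) ε) :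
    (Nat.card {p : X × (Fin (w + 1) → Fin n → Fin d → Word D m B) // ∀ l, p.1 - Dl l (p.2 l) (e l) ∈ E ∧
      Unread (U l) (p.1 - Dl l (p.2 l) (e l)) (K0 l) (p.2 l)} : ℝ) ≤
      2 * ε * (Nat.card X * Nat.card (Fin (w + 1) → Fin n → Fin d → Word D m B)) := by
  sorry

/-! ## (B3) helper43: the bound in one orbit, abstract form (from helper89's chain and the game) -/

open Classical in
theorem orbit_bound {n D m d w : ℕ} {F B G X : Type} [Field F] [Fintype F] [AddCommGroup B] [Module F B] [Fintype B]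
    [AddCommGroup G] [Fintype G] (hG : 2 ≤ Fintype.card G) [AddCommGroup X] [Fintype X]
    (Dl : Fin (w + 1) → (Fin n → Fin d → Word D m B) → ((Fin n → Fin d → F) →+ X))
    (lx : X →+ (Fin n × Fin m → B)) (cs : Fin (w + 1) → Fin n → Fin n × Fin m → Finset (Fin D × Fin m))
    (own : Fin (w + 1) → Fin n → Fin m → Fin D × Fin m) (hS : Setting Dl lx cs own)
    (U : Fin (w + 1) → X → Fin n → Finset (Word D m B)) (E : Finset X) (t0 : Fin n × Fin m → B) (γ : B → G) (a : G)
    (V : Finset (Fin n)) (h M Z κ : ℕ) (hN : Par n D m d w F B h M Z κ V.card)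
    (hU : ∀ l, ∀ x ∈ E, ∀ u ∈ V, h ≤ (U l x u).card)
    (hcl : ∀ (x : X) (b : Fin (w + 1) → Fin n → Fin d → Word D m B) (e : Fin (w + 1) → Fin n → Fin d → F),
      (∀ l, x - Dl l (b l) (e l) ∈ E ∧ ∀ u j, e l u j ≠ 0 → b l u j ∈ U l (x - Dl l (b l) (e l)) u) →
      ∑ v, γ (t0 v + lx x v) = a)
    {ε : ℝ} (hε : 0 ≤ ε) (hCB : ∀ K : Finset (Fin n), κ ≤ K.card → CB γ (K × Fin m) (2 * w + 1) ε) :
    (E.card : ℝ) ≤ errB n d w Z (Fintype.card F) ((h : ℝ) / Fintype.card (Word D m B)) ε * Nat.card X := by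
  sorry

section net

variable {n D m d S : ℕ} [NeZero m] {F B Z : Type} [Field F] [Fintype F] [AddCommGroup B] [Module F B] [Fintype B]

/-! ## (C1) helper98: the setting of the network, from one orbit to the inputs of one type, for fixed `γ`.
The orbit of `I`: `act g x0 R I (emb x)`, `x : Ch0 n D m F B` (helper66, NQ/Orb). `U l x u` = the unread places different
from `0` (in a run for the window `l` at the changed input) of the block of the letter `pos g (τ l) u` of row `R`. -/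

theorem setting_net (g : Fin D → Equiv.Perm (Fin n)) {w : ℕ} (τ : Fin (w + 1) → Fin n → Fin D × Fin m) :
    ∃ lx : Ch0 n D m F B →+ (Fin n × Fin m → B), (∀ x, lx x = lam g (emb x)) ∧
      ∃ cs own, Setting (d := d) (fun l b => (rst (F := F) (B := B)).comp (flip g (τ l) b)) lx cs own := by
  sorry

/-- `h + 1` unread symbols, at least `h` of them at places different from `0`. -/
theorem type_bound (P : NProg (B × Word D m B) F F S) (g : Fin D → Equiv.Perm (Fin n)) (x0 : Fin n × Fin m → B)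
    (R : ℕ) {w : ℕ} (σ : Fin (w + 2) → Fin S) (V : Finset (Fin n)) (τ : Fin (w + 1) → Fin n → Fin D × Fin m)
    (a : F) (γ : B → F)
    (hs : ∀ I, (∀ b, I (b, 0) = γ b) → (∀ l : Fin (w + 1), ∃ c, P.Run I (σ l.castSucc) c (σ l.succ)) →
      out g x0 (R + 1) I = a)
    (h M Z κ : ℕ) (hN : Par n D m d w F B h M Z κ V.card)
    {ε : ℝ} (hε : 0 ≤ ε) (hCB : ∀ K : Finset (Fin n), κ ≤ K.card → CB γ (K × Fin m) (2 * w + 1) ε) :
    (Nat.card {I : B × Word D m B → F // (∀ b, I (b, 0) = γ b) ∧ CF (fine g) x0 R (tab I) ∧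
      InT P g x0 (h + 1) R σ V τ I} : ℝ) ≤
      errB n d w Z (Fintype.card F) ((h : ℝ) / Fintype.card (Word D m B)) ε *
        Nat.card {I : B × Word D m B → F // ∀ b, I (b, 0) = γ b} := by
  sorry

/-! ## (C2) helper70: cut, dichotomy, all types -/

theorem exists_cut {C W : Type} (P : NProg C W Z S) {I : C → W} {s t : Fin S} {c : List C} (hc : P.Run I s c t)
    {w T : ℕ} (hlen : c.length ≤ (w + 1) * T) :
    ∃ (σ : Fin (w + 2) → Fin S) (x : Fin (w + 1) → List C), σ 0 = s ∧ σ (Fin.last _) = t ∧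
      ∀ l, P.Run I (σ l.castSucc) (x l) (σ l.succ) ∧ (x l).length ≤ T := by
  sorry

/-- `Force P g x0 h a R l s t I` (helper78, NK/Rec.lean): every run from `s` to `t` of length at most `l` makes all but `a`
nodes of row `R` full. From helper78's `force_or` (with `κ = 4 (w + 1)`) and `exists_holes`. -/
theorem dichotomy (P : NProg (B × Word D m B) F Z S) (g : Fin D → Equiv.Perm (Fin n)) (x0 : Fin n × Fin m → B)
    (h T a R : ℕ) {w : ℕ}
    (hX : ∀ X : Finset (Fin n), n ≤ 4 * (w + 1) * X.card →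
      n ≤ (X.biUnion (fun u => univ.image (fun s => g s u))).card + a)
    {I : B × Word D m B → F} {c : List (B × Word D m B)} {z : Z} (hc : P.Ends I c z)
    (hlen : c.length ≤ (w + 1) * T) :
    (∃ s t, (∃ c, P.Run I s c t ∧ c.length ≤ T) ∧ Pool.Agent.Helper78.NK.Force P g x0 h a R T s t I) ∨
      ∃ (σ : Fin (w + 2) → Fin S) (V : Finset (Fin n)) (τ : Fin (w + 1) → Fin n → Fin D × Fin m),
      σ 0 = P.start ∧ P.act (σ (Fin.last _)) = Sum.inr z ∧ 3 * n ≤ 4 * V.card ∧ InT P g x0 h R σ V τ I := by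
  sorry

/-! ## (A) helper78: forced windows, all inputs: DONE, `Pool.Agent.Helper78.NK.forced_bound` in Helper78/NK/Rec.lean -/

/-! ## (C2b) helper70: everything together, `γ` averaged with `Helper18.PH.bns2` (`G = F`, `w' = 2 w + 1`).
`μ` = part of the inputs without `CF` up to row `R`: `((R + 1) n m) ^ 2 / |B|` (as in NQ main_bound). -/

theorem main_bound (P : NProg (B × Word D m B) F F S) (g : Fin D → Equiv.Perm (Fin n)) (x0 : Fin n × Fin m → B)
    (hx0 : Function.Injective x0) (h T a R ℓ κ' j : ℕ) {w : ℕ} (hℓ : 2 ^ R * ℓ ≤ T) (hD : 0 < D)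
    (hX : ∀ X : Finset (Fin n), n ≤ 4 * (w + 1) * X.card →
      n ≤ (X.biUnion (fun u => univ.image (fun s => g s u))).card + a)
    (ha : a < n) (hP : ∀ I l z, P.Ends I l z → z = out g x0 (R + 1) I)
    (hL : h + 1 + ℓ ≤ Fintype.card (Word D m B)) (hq : Fintype.card (Word D m B) ≤ (h + 1) * Fintype.card F)
    (hT : T ≤ Fintype.card (B × Word D m B)) (η : ℝ)
    (hη : η = 1 + (1 - (T : ℝ) / Fintype.card (B × Word D m B) - ((h + 1 : ℕ) : ℝ) / Fintype.card (Word D m B)) / 2)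
    (hη1 : 1 ≤ η) (hκ' : 2 * a ≤ κ') (hj : 2 * j ≤ n)
    (M Z κ v : ℕ) (hv : 4 * v ≤ 3 * n) (hN : Par n D m d w F B h M Z κ v) :
    (Nat.card {I : B × Word D m B → F // ∃ l z, P.Ends I l z ∧ l.length ≤ (w + 1) * (2 ^ R * ℓ)} : ℝ) ≤
      (((R + 1) * (n * m)) ^ 2 / Fintype.card B +
        R * S ^ 3 * 2 ^ n * (D * m) ^ (2 * n) *
          err n m d a κ' j (Fintype.card F) (((h + 1 : ℕ) : ℝ) / Fintype.card (Word D m B)) η +
        Fintype.card F * 2 ^ (2 * w + 2) / Real.sqrt (Fintype.card B) +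
        S ^ (w + 2) * 2 ^ n * (D * m) ^ (n * (w + 1)) *
          errB n d w Z (Fintype.card F) ((h : ℝ) / Fintype.card (Word D m B))
            ((Fintype.card B : ℝ) ^ (-((κ * m : ℕ) : ℝ) / 2 ^ (2 * w + 3)))) *
        Nat.card (B × Word D m B → F) := by
  sorry

/-! ## (C5) helper60: the deterministic pushdown program (reads the blocks symbol by symbol) -/

theorem upper (g : Fin D → Equiv.Perm (Fin n)) (x0 : Fin n × Fin m → B) (R : ℕ) (hn : 0 < n)
    (hB : (R + 2) * (n * m) ≤ Fintype.card B) (hB2 : 2 ≤ Fintype.card B) (hD : D * m ≤ Fintype.card B)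
    (h9 : 9 ≤ D * m) :
    ∃ (Q Γ : Type) (_ : Finite Q) (_ : Finite Γ) (P : PProg (B × Word D m B) F F Q Γ),
      Nat.card Q ≤ Nat.card (B × Word D m B) ^ 4 ∧ Nat.card Γ ≤ Nat.card (B × Word D m B) ∧
      ∀ I, P.Outputs I (out g x0 R I) ∧
        Nat.card {x // P.Asks I x} ≤ (R + 2) * (n * m) * Nat.card (Word D m B) := by
  sorry

end net

/-! ## (C4) permutations: `n = M ^ 2 * a` nodes -/

theorem exists_perms (M a W : ℕ) (hM : 1 ≤ M) (ha : 1 ≤ a) (hW : 1 ≤ W) :
    ∃ g : Fin (5 * M ^ 2 * W) → Equiv.Perm (Fin (M ^ 2 * a)),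
    ∀ X : Finset (Fin (M ^ 2 * a)), M ^ 2 * a ≤ 4 * W * X.card →
      M ^ 2 * a ≤ (X.biUnion (fun u => univ.image (fun s => g s u))).card + a := by
  sorry

end Pool.Agent.Helper43.NK.Frame
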