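import Pool.Agent.Helper43.NK.Defs

/-!
# NK, part B2: for fixed `e` the configurations are a cylinder intersection of `2 (w + 1)` players
-/

set_option autoImplicit false

namespace Pool.Agent.Helper43.NK

open Finset Pool.Agent.Helper99.NQ
open Pool.Agent.Helper96.PH (CB)

/-- The cylinder lemma for the player type `P`: if the sum is constant on the intersection, the intersection is small. -/
theorem cb_players {B G ι P : Type} [AddCommGroup B] [Fintype B] [AddCommGroup G] [Fintype G] [Fintype ι] [Fintype P]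
    (hG : 2 ≤ Fintype.card G) {γ : B → G} {w : ℕ} (hP : Fintype.card P = w + 1) {ε : ℝ} (h : CB γ ι w ε) (x : ι → B)
    (C : P → Set (P → ι → B)) (hC : ∀ p y y', (∀ q, q ≠ p → y q = y' q) → y ∈ C p → y' ∈ C p) (a : G)
    (ha : ∀ y, (∀ p, y ∈ C p) → ∑ c, γ (x c + ∑ p, y p c) = a) :
    (Nat.card {y : P → ι → B // ∀ p, y ∈ C p} : ℝ) ≤ 2 * ε * Nat.card (P → ι → B) := by
  classical
  have hcard : Fintype.card (Fin (w + 1)) = Fintype.card P := by rw [hP, Fintype.card_fin]
  let φ : Fin (w + 1) ≃ P := Fintype.equivOfCardEq hcard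
  let Φ : (Fin (w + 1) → ι → B) ≃ (P → ι → B) := Equiv.arrowCongr φ (Equiv.refl _)
  have hΦ : ∀ y p, Φ y p = y (φ.symm p) := fun y p => rfl
  have h1 := h x (fun l => {y | Φ y ∈ C (φ l)}) (by
    intro l y z hy
    refine hC (φ l) (Φ y) _ ?_ hy
    intro q hq
    rw [hΦ, hΦ, Function.update_of_ne]
    intro h2
    exact hq (by rw [← h2, Equiv.apply_symm_apply])) a
  have e1 : Nat.card {y : Fin (w + 1) → ι → B // ∀ l, y ∈ (fun l => {y | Φ y ∈ C (φ l)}) l} =
      Nat.card {y : P → ι → B // ∀ p, y ∈ C p} := by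
    refine Nat.card_congr (Φ.subtypeEquiv ?_)
    intro y
    constructor
    · intro h2 p
      have h3 := h2 (φ.symm p)
      simp only [Set.mem_ofPred_eq, Equiv.apply_symm_apply] at h3
      exact h3
    · intro h2 l
      exact h2 (φ l)
  have e2 : Nat.card {y : Fin (w + 1) → ι → B // (∀ l, y ∈ (fun l => {y | Φ y ∈ C (φ l)}) l) ∧
      ∑ c, γ (x c + ∑ l, y l c) = a} = Nat.card {y : P → ι → B // ∀ p, y ∈ C p} := by
    rw [← e1]
    refine Nat.card_congr (Equiv.subtypeEquivRight ?_)
    intro y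
    constructor
    · exact fun h2 => h2.1
    · intro h2
      refine ⟨h2, ?_⟩
      have h3 := ha (Φ y) (by
        intro p
        have h3 := h2 (φ.symm p)
        simp only [Set.mem_ofPred_eq, Equiv.apply_symm_apply] at h3
        exact h3)
      rw [← h3]
      refine Finset.sum_congr rfl fun c _ => ?_
      congr 2
      exact Fintype.sum_equiv φ _ _ (fun l => by rw [hΦ, Equiv.symm_apply_apply])
  have e3 : Nat.card (Fin (w + 1) → ι → B) = Nat.card (P → ι → B) := Nat.card_congr Φ
  rw [e2, e1, e3] at h1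
  have h2 : (2 : ℝ) ≤ Nat.card G := by
    rw [Nat.card_eq_fintype_card]
    exact_mod_cast hG
  have h3 : (Nat.card {y : P → ι → B // ∀ p, y ∈ C p} : ℝ) / Nat.card G ≤
      (Nat.card {y : P → ι → B // ∀ p, y ∈ C p} : ℝ) / 2 :=
    div_le_div_of_nonneg_left (by positivity) (by norm_num) h2
  linarith

section sh

variable {n D m d w : ℕ} {F B X : Type} [Field F] [AddCommGroup B] [Module F B] [AddCommGroup X]

open Classical in
/-- The change of the places by the players. -/
noncomputable def sh (own : Fin (w + 1) → Fin n → Fin m → Fin D × Fin m) (e : Fin (w + 1) → Fin n → Fin d → F)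
    (K : Finset (Fin n)) (p : Fin (w + 1) → Fin n → Fin 2 → Fin d) (y : Fin (w + 1) × Fin 2 → (K × Fin m → B)) :
    Fin (w + 1) → Fin n → Fin d → Word D m B :=
  fun l u j c => if hu : u ∈ K then ∑ i : Fin 2, ∑ t : Fin m,
    (if j = p l u i ∧ c = own l u t then (e l u j)⁻¹ • y (l, i) (⟨u, hu⟩, t) else 0) else 0

theorem sh_congr (own : Fin (w + 1) → Fin n → Fin m → Fin D × Fin m) (e : Fin (w + 1) → Fin n → Fin d → F)
    (K : Finset (Fin n)) (p : Fin (w + 1) → Fin n → Fin 2 → Fin d) {y y' : Fin (w + 1) × Fin 2 → (K × Fin m → B)}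
    (l : Fin (w + 1)) (u : Fin n) (j : Fin d)
    (h : ∀ i, (u ∈ K → j = p l u i) → y (l, i) = y' (l, i)) : sh own e K p y l u j = sh own e K p y' l u j := by
  funext c
  unfold sh
  split_ifs with hu
  · refine Finset.sum_congr rfl fun i _ => Finset.sum_congr rfl fun t _ => ?_
    split_ifs with h1
    · rw [h i (fun _ => h1.1)]
    · rfl
  · rfl

variable {Dl : Fin (w + 1) → (Fin n → Fin d → Word D m B) → ((Fin n → Fin d → F) →+ X)}
  {lx : X →+ (Fin n × Fin m → B)} {cs : Fin (w + 1) → Fin n → Fin n × Fin m → Finset (Fin D × Fin m)}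
  {own : Fin (w + 1) → Fin n → Fin m → Fin D × Fin m}

theorem sum_sh (hS : Setting Dl lx cs own) (e : Fin (w + 1) → Fin n → Fin d → F)
    (K : Finset (Fin n)) (p : Fin (w + 1) → Fin n → Fin 2 → Fin d) (hp : ∀ l, ∀ u ∈ K, ∀ i, e l u (p l u i) ≠ 0)
    (y : Fin (w + 1) × Fin 2 → (K × Fin m → B)) (l : Fin (w + 1)) (v : Fin n × Fin m) :
    ∑ u, ∑ j, ∑ c ∈ cs l u v, e l u j • sh own e K p y l u j c =
      if hv : v.1 ∈ K then ∑ i, y (l, i) (⟨v.1, hv⟩, v.2) else 0 := by
  classical
  have h1 : ∀ u, ∑ j, ∑ c ∈ cs l u v, e l u j • sh own e K p y l u j c =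
      if hu : u ∈ K then ∑ i : Fin 2, ∑ t : Fin m, (if v = (u, t) then y (l, i) (⟨u, hu⟩, t) else 0) else 0 := by
    intro u
    by_cases hu : u ∈ K
    · rw [dif_pos hu]
      have h2 : ∀ j c, e l u j • sh own e K p y l u j c = ∑ i : Fin 2, ∑ t : Fin m,
          (if j = p l u i ∧ c = own l u t then y (l, i) (⟨u, hu⟩, t) else 0) := by
        intro j c
        unfold sh
        rw [dif_pos hu, Finset.smul_sum]
        refine Finset.sum_congr rfl fun i _ => ?_
        rw [Finset.smul_sum]
        refine Finset.sum_congr rfl fun t _ => ?_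
        split_ifs with h3
        · rw [smul_smul, mul_inv_cancel₀ (by rw [h3.1]; exact hp l u hu i), one_smul]
        · rw [smul_zero]
      simp_rw [h2]
      calc ∑ j, ∑ c ∈ cs l u v, ∑ i : Fin 2, ∑ t : Fin m,
            (if j = p l u i ∧ c = own l u t then y (l, i) (⟨u, hu⟩, t) else 0)
          = ∑ j, ∑ i : Fin 2, ∑ c ∈ cs l u v, ∑ t : Fin m,
            (if j = p l u i ∧ c = own l u t then y (l, i) (⟨u, hu⟩, t) else 0) := by
              refine Finset.sum_congr rfl fun j _ => ?_
              rw [Finset.sum_comm]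
        _ = ∑ i : Fin 2, ∑ j, ∑ c ∈ cs l u v, ∑ t : Fin m,
            (if j = p l u i ∧ c = own l u t then y (l, i) (⟨u, hu⟩, t) else 0) := Finset.sum_comm
        _ = ∑ i : Fin 2, ∑ t : Fin m, (if v = (u, t) then y (l, i) (⟨u, hu⟩, t) else 0) := by
              refine Finset.sum_congr rfl fun i _ => ?_
              rw [Finset.sum_eq_single (p l u i)]
              · rw [Finset.sum_comm]
                refine Finset.sum_congr rfl fun t _ => ?_
                by_cases hv : v = (u, t)
                · rw [if_pos hv, Finset.sum_eq_single (own l u t)]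
                  · rw [if_pos ⟨rfl, rfl⟩]
                  · intro c _ hc
                    rw [if_neg (fun h => hc h.2)]
                  · intro h
                    exact absurd ((hS.own l u t v).2 hv) h
                · rw [if_neg hv]
                  refine Finset.sum_eq_zero fun c hc => ?_
                  rw [if_neg]
                  rintro ⟨-, h⟩
                  rw [h] at hc
                  exact hv ((hS.own l u t v).1 hc)
              · intro j _ hj
                refine Finset.sum_eq_zero fun c _ => Finset.sum_eq_zero fun t _ => ?_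
                rw [if_neg (fun h => hj h.1)]
              · intro h
                exact absurd (mem_univ _) h
    · rw [dif_neg hu]
      refine Finset.sum_eq_zero fun j _ => Finset.sum_eq_zero fun c _ => ?_
      unfold sh
      rw [dif_neg hu, smul_zero]
  simp_rw [h1]
  rw [Finset.sum_eq_single v.1]
  · split_ifs with hv
    · refine Finset.sum_congr rfl fun i _ => ?_
      rw [Finset.sum_eq_single v.2]
      · rw [if_pos rfl]
      · intro t _ ht
        rw [if_neg]
        intro h
        exact ht (by rw [h])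
      · intro h
        exact absurd (mem_univ _) h
    · rfl
  · intro u _ hu
    split_ifs with hK
    · refine Finset.sum_eq_zero fun i _ => Finset.sum_eq_zero fun t _ => ?_
      rw [if_neg]
      intro h
      exact hu (by rw [h])
    · rfl
  · intro h
    exact absurd (mem_univ _) h

end sh

section game

variable {n D m d w : ℕ} {F B G X : Type} [Field F] [Fintype F] [AddCommGroup B] [Module F B] [Fintype B]
  [AddCommGroup G] [Fintype G] [AddCommGroup X] [Fintype X]

/-- For fixed `x` (without changes) and fixed `b` the good moves of the players are few. -/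
theorem game_fiber (hG : 2 ≤ Fintype.card G)
    (Dl : Fin (w + 1) → (Fin n → Fin d → Word D m B) → ((Fin n → Fin d → F) →+ X))
    (lx : X →+ (Fin n × Fin m → B)) (cs : Fin (w + 1) → Fin n → Fin n × Fin m → Finset (Fin D × Fin m))
    (own : Fin (w + 1) → Fin n → Fin m → Fin D × Fin m) (hS : Setting Dl lx cs own)
    (U : Fin (w + 1) → X → Fin n → Finset (Word D m B)) (E : Finset X) (t0 : Fin n × Fin m → B) (γ : B → G) (a : G)
    (K0 : Fin (w + 1) → Finset (Fin n)) (e : Fin (w + 1) → Fin n → Fin d → F) (K : Finset (Fin n))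
    (p : Fin (w + 1) → Fin n → Fin 2 → Fin d) (hp : ∀ l, ∀ u ∈ K, ∀ i, e l u (p l u i) ≠ 0)
    (hp2 : ∀ l, ∀ u ∈ K, p l u 0 ≠ p l u 1)
    (hcl : ∀ (x : X) (b : Fin (w + 1) → Fin n → Fin d → Word D m B), (∀ l, x - Dl l (b l) (e l) ∈ E ∧
      Unread (U l) (x - Dl l (b l) (e l)) (K0 l) (b l)) → ∑ v, γ (t0 v + lx x v) = a)
    {ε : ℝ} (hCB : CB γ (K × Fin m) (2 * w + 1) ε) (z : X) (b : Fin (w + 1) → Fin n → Fin d → Word D m B) :
    (Nat.card {y : Fin (w + 1) × Fin 2 → (K × Fin m → B) //
      ∀ l, z + ∑ l', Dl l' (b l' + sh own e K p y l') (e l') - Dl l (b l + sh own e K p y l) (e l) ∈ E ∧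
        Unread (U l) (z + ∑ l', Dl l' (b l' + sh own e K p y l') (e l') - Dl l (b l + sh own e K p y l) (e l))
          (K0 l) (b l + sh own e K p y l)} : ℝ) ≤
      2 * ε * Nat.card (Fin (w + 1) × Fin 2 → (K × Fin m → B)) := by
  classical
  set xx : (Fin (w + 1) × Fin 2 → (K × Fin m → B)) → Fin (w + 1) → X := fun y l =>
    z + ∑ l', Dl l' (b l' + sh own e K p y l') (e l') - Dl l (b l + sh own e K p y l) (e l) with hxx
  have hxx2 : ∀ y l, xx y l = z + ∑ l' ∈ univ.erase l, Dl l' (b l' + sh own e K p y l') (e l') := by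
    intro y l
    rw [hxx]
    simp only
    rw [← Finset.add_sum_erase univ _ (mem_univ l)]
    abel
  -- the cylinders
  set C : Fin (w + 1) × Fin 2 → Set (Fin (w + 1) × Fin 2 → (K × Fin m → B)) := fun q =>
    {y | xx y q.1 ∈ E ∧ ∀ u ∈ K0 q.1, ∀ j, (u ∈ K → j ≠ p q.1 u q.2) →
      (b q.1 + sh own e K p y q.1) u j ∈ U q.1 (xx y q.1) u} with hCdef
  have hC : ∀ q y y', (∀ q', q' ≠ q → y q' = y' q') → y ∈ C q → y' ∈ C q := by
    rintro ⟨l, i⟩ y y' hy ⟨h1, h2⟩
    have h3 : xx y' l = xx y l := by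
      rw [hxx2, hxx2]
      congr 1
      refine Finset.sum_congr rfl fun l' hl' => ?_
      have h4 : sh own e K p y' l' = sh own e K p y l' := by
        funext u j
        refine sh_congr own e K p l' u j fun i' _ => (hy (l', i') ?_).symm
        intro h5
        exact (Finset.mem_erase.1 hl').1 (congrArg Prod.fst h5)
      rw [h4]
    refine ⟨?_, ?_⟩
    · show xx y' l ∈ E
      rw [h3]
      exact h1
    · intro u hu j hj
      show (b l + sh own e K p y' l) u j ∈ U l (xx y' l) u
      rw [h3]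
      have h4 : sh own e K p y' l u j = sh own e K p y l u j := by
        by_cases hu2 : u ∈ K
        · refine sh_congr own e K p l u j fun i' h5 => (hy (l, i') ?_).symm
          intro h6
          have h7 : i' = i := congrArg Prod.snd h6
          exact hj hu2 (by rw [h5 hu2, h7])
        · funext c
          unfold sh
          rw [dif_neg hu2, dif_neg hu2]
      have h5 : (b l + sh own e K p y' l) u j = (b l + sh own e K p y l) u j := by
        show b l u j + sh own e K p y' l u j = b l u j + sh own e K p y l u j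
        rw [h4]
      rw [h5]
      exact h2 u hu j hj
  have hCiff : ∀ y, (∀ l, xx y l ∈ E ∧ Unread (U l) (xx y l) (K0 l) (b l + sh own e K p y l)) ↔ ∀ q, y ∈ C q := by
    intro y
    constructor
    · rintro h ⟨l, i⟩
      exact ⟨(h l).1, fun u hu j _ => (h l).2 u hu j⟩
    · intro h l
      refine ⟨(h (l, 0)).1, fun u hu j => ?_⟩
      by_cases hu2 : u ∈ K
      · by_cases hj : j = p l u 0
        · exact (h (l, 1)).2 u hu j (fun _ => by rw [hj]; exact hp2 l u hu2)
        · exact (h (l, 0)).2 u hu j (fun _ => hj)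
      · exact (h (l, 0)).2 u hu j (fun h3 => absurd h3 hu2)
  -- the letters
  set z0 : Fin n × Fin m → B := fun v => t0 v + (lx z v + ∑ l, ∑ u, ∑ j, ∑ c ∈ cs l u v, e l u j • b l u j c) with hz0
  have hlet : ∀ y v, t0 v + lx (z + ∑ l', Dl l' (b l' + sh own e K p y l') (e l')) v =
      z0 v + if hv : v.1 ∈ K then ∑ q, y q (⟨v.1, hv⟩, v.2) else 0 := by
    intro y v
    rw [map_add, map_sum, Pi.add_apply, Finset.sum_apply]
    have h1 : ∀ l, lx (Dl l (b l + sh own e K p y l) (e l)) v =
        ∑ u, ∑ j, ∑ c ∈ cs l u v, e l u j • b l u j c +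
          ∑ u, ∑ j, ∑ c ∈ cs l u v, e l u j • sh own e K p y l u j c := by
      intro l
      rw [hS.lam]
      simp only [Pi.add_apply, smul_add, Finset.sum_add_distrib]
    simp_rw [h1]
    rw [Finset.sum_add_distrib]
    have h2 : ∑ l, ∑ u, ∑ j, ∑ c ∈ cs l u v, e l u j • sh own e K p y l u j c =
        if hv : v.1 ∈ K then ∑ q, y q (⟨v.1, hv⟩, v.2) else 0 := by
      simp_rw [sum_sh hS e K p hp y]
      split_ifs with hv
      · rw [Fintype.sum_prod_type]
      · exact Finset.sum_const_zero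
    rw [h2, hz0]
    simp only
    abel
  have hcard : Fintype.card (Fin (w + 1) × Fin 2) = 2 * w + 1 + 1 := by
    rw [Fintype.card_prod, Fintype.card_fin, Fintype.card_fin]
    ring
  -- the sum over the letters
  have hsum : ∀ y, ∑ v, γ (t0 v + lx (z + ∑ l', Dl l' (b l' + sh own e K p y l') (e l')) v) =
      ∑ c : K × Fin m, γ (z0 (c.1.1, c.2) + ∑ q, y q c) +
        ∑ u ∈ univ.filter (fun u => u ∉ K), ∑ t, γ (z0 (u, t)) := by
    intro y
    rw [Fintype.sum_prod_type, Fintype.sum_prod_type, ← Finset.sum_filter_add_sum_filter_not univ (fun u => u ∈ K)]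
    congr 1
    · have h1 : (univ.filter (fun u : Fin n => u ∈ K)) = K := by
        ext u
        simp
      rw [h1, ← Finset.sum_coe_sort K]
      refine Finset.sum_congr rfl fun u _ => Finset.sum_congr rfl fun t _ => ?_
      rw [hlet, dif_pos u.2]
    · refine Finset.sum_congr rfl fun u hu => Finset.sum_congr rfl fun t _ => ?_
      rw [hlet, dif_neg (mem_filter.1 hu).2, add_zero]
  have key := cb_players hG hcard hCB (fun c => z0 (c.1.1, c.2)) C hC
    (a - ∑ u ∈ univ.filter (fun u => u ∉ K), ∑ t, γ (z0 (u, t))) (by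
      intro y hy
      rw [eq_sub_iff_add_eq, ← hsum y]
      exact hcl _ (fun l => b l + sh own e K p y l) ((hCiff y).2 hy))
  refine le_trans (le_of_eq ?_) key
  congr 1
  refine Nat.card_congr (Equiv.subtypeEquivRight ?_)
  intro y
  exact hCiff y

open Classical in
/-- For fixed `e` the configurations are few. -/
theorem game (hG : 2 ≤ Fintype.card G)
    (Dl : Fin (w + 1) → (Fin n → Fin d → Word D m B) → ((Fin n → Fin d → F) →+ X))
    (lx : X →+ (Fin n × Fin m → B)) (cs : Fin (w + 1) → Fin n → Fin n × Fin m → Finset (Fin D × Fin m))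
    (own : Fin (w + 1) → Fin n → Fin m → Fin D × Fin m) (hS : Setting Dl lx cs own)
    (U : Fin (w + 1) → X → Fin n → Finset (Word D m B)) (E : Finset X) (t0 : Fin n × Fin m → B) (γ : B → G) (a : G)
    (K0 : Fin (w + 1) → Finset (Fin n)) (e : Fin (w + 1) → Fin n → Fin d → F) (K : Finset (Fin n))
    (hK : ∀ l, K ⊆ supp2 (e l))
    (hcl : ∀ (x : X) (b : Fin (w + 1) → Fin n → Fin d → Word D m B), (∀ l, x - Dl l (b l) (e l) ∈ E ∧
      Unread (U l) (x - Dl l (b l) (e l)) (K0 l) (b l)) → ∑ v, γ (t0 v + lx x v) = a)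
    {ε : ℝ} (hCB : CB γ (K × Fin m) (2 * w + 1) ε) :
    (Nat.card {p : X × (Fin (w + 1) → Fin n → Fin d → Word D m B) // ∀ l, p.1 - Dl l (p.2 l) (e l) ∈ E ∧
      Unread (U l) (p.1 - Dl l (p.2 l) (e l)) (K0 l) (p.2 l)} : ℝ) ≤
      2 * ε * (Nat.card X * Nat.card (Fin (w + 1) → Fin n → Fin d → Word D m B)) := by
  set Bs : Type := Fin (w + 1) → Fin n → Fin d → Word D m B with hBs
  set Y : Type := Fin (w + 1) × Fin 2 → (K × Fin m → B) with hY
  by_cases hd : 0 < d
  swap
  · -- then `K` is empty and `1 ≤ 2 ε`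
    have hK0 : K = ∅ := by
      rw [Finset.eq_empty_iff_forall_notMem]
      intro u hu
      obtain ⟨i, -⟩ := (mem_filter.1 (hK 0 hu)).2
      exact hd (lt_of_le_of_lt (Nat.zero_le _) i.2)
    have hE : IsEmpty (K × Fin m) :=
      ⟨fun q => Finset.notMem_empty q.1.1 (Eq.mp (congrArg (fun s => q.1.1 ∈ s) hK0) q.1.2)⟩
    have h1 := cb_players (P := Fin (2 * w + 1 + 1)) hG (Fintype.card_fin _) hCB (fun _ => 0) (fun _ => Set.univ)
      (fun _ _ _ _ _ => Set.mem_univ _) 0 (fun y _ => Finset.univ_eq_empty (α := K × Fin m) ▸ Finset.sum_empty)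
    have h2 : Nat.card {y : Fin (2 * w + 1 + 1) → K × Fin m → B //
        ∀ p : Fin (2 * w + 1 + 1), y ∈ (fun _ => Set.univ : Fin (2 * w + 1 + 1) → Set _) p} =
        Nat.card (Fin (2 * w + 1 + 1) → K × Fin m → B) :=
      Nat.card_congr (Equiv.subtypeUnivEquiv (fun y p => Set.mem_univ _))
    rw [h2] at h1
    have h3 : (0 : ℝ) < Nat.card (Fin (2 * w + 1 + 1) → K × Fin m → B) := by
      exact_mod_cast Nat.card_pos
    have h4 : (1 : ℝ) ≤ 2 * ε := by
      by_contra h5
      push Not at h5
      nlinarith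
    have h5 : (Nat.card {p : X × Bs // ∀ l, p.1 - Dl l (p.2 l) (e l) ∈ E ∧
        Unread (U l) (p.1 - Dl l (p.2 l) (e l)) (K0 l) (p.2 l)} : ℝ) ≤ Nat.card X * Nat.card Bs := by
      rw [← Nat.cast_mul, ← Nat.card_prod]
      exact_mod_cast Finite.card_subtype_le _
    have h6 : (0 : ℝ) ≤ Nat.card X * Nat.card Bs := by positivity
    nlinarith
  have h2 : ∀ (l : Fin (w + 1)) (u : Fin n), ∃ q : Fin 2 → Fin d, u ∈ K → (∀ i, e l u (q i) ≠ 0) ∧ q 0 ≠ q 1 := by
    intro l u
    by_cases hu : u ∈ K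
    · obtain ⟨i, j, hij, hi, hj⟩ := (mem_filter.1 (hK l hu)).2
      refine ⟨![i, j], fun _ => ⟨?_, by simpa using hij⟩⟩
      intro i'
      fin_cases i'
      · exact hi
      · exact hj
    · exact ⟨fun _ => ⟨0, hd⟩, fun h => absurd h hu⟩
  choose p hp using h2
  set Cond : X × Bs → Prop := fun q => ∀ l, q.1 - Dl l (q.2 l) (e l) ∈ E ∧
    Unread (U l) (q.1 - Dl l (q.2 l) (e l)) (K0 l) (q.2 l) with hCond
  let T : Y → (X × Bs) ≃ (X × Bs) := fun y =>
    { toFun := fun q => (q.1 + ∑ l', Dl l' (q.2 l' + sh own e K p y l') (e l'), fun l => q.2 l + sh own e K p y l)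
      invFun := fun q => (q.1 - ∑ l', Dl l' (q.2 l') (e l'), fun l => q.2 l - sh own e K p y l)
      left_inv := by
        rintro ⟨x, b⟩
        simp only [add_sub_cancel_right]
      right_inv := by
        rintro ⟨x, b⟩
        simp only [sub_add_cancel] }
  have hN : (Nat.card {q : X × Bs // Cond q} : ℝ) = ∑ q : X × Bs, (if Cond q then (1 : ℝ) else 0) := by
    rw [Nat.card_eq_fintype_card, Fintype.card_subtype, Finset.sum_boole]
  have h3 : ∀ y, ∑ q : X × Bs, (if Cond (T y q) then (1 : ℝ) else 0) = Nat.card {q : X × Bs // Cond q} := by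
    intro y
    rw [hN]
    exact Equiv.sum_comp (T y) (fun q => if Cond q then (1 : ℝ) else 0)
  have h4 : ∀ q : X × Bs, ∑ y : Y, (if Cond (T y q) then (1 : ℝ) else 0) ≤ 2 * ε * Nat.card Y := by
    rintro ⟨z, b⟩
    refine le_trans (le_of_eq ?_) (game_fiber hG Dl lx cs own hS U E t0 γ a K0 e K p
      (fun l u hu i => (hp l u hu).1 i) (fun l u hu => (hp l u hu).2) hcl hCB z b)
    rw [Finset.sum_boole, Nat.card_eq_fintype_card, Fintype.card_subtype]
    rfl
  have h5 : (Nat.card Y : ℝ) * Nat.card {q : X × Bs // Cond q} ≤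
      (Nat.card X * Nat.card Bs) * (2 * ε * Nat.card Y) := by
    calc (Nat.card Y : ℝ) * Nat.card {q : X × Bs // Cond q}
        = ∑ _y : Y, (Nat.card {q : X × Bs // Cond q} : ℝ) := by
          rw [Finset.sum_const, Finset.card_univ, nsmul_eq_mul, Nat.card_eq_fintype_card (α := Y)]
      _ = ∑ y : Y, ∑ q : X × Bs, (if Cond (T y q) then (1 : ℝ) else 0) :=
          Finset.sum_congr rfl fun y _ => (h3 y).symm
      _ = ∑ q : X × Bs, ∑ y : Y, (if Cond (T y q) then (1 : ℝ) else 0) := Finset.sum_comm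
      _ ≤ ∑ _q : X × Bs, 2 * ε * Nat.card Y := Finset.sum_le_sum fun q _ => h4 q
      _ = (Nat.card X * Nat.card Bs) * (2 * ε * Nat.card Y) := by
          rw [Finset.sum_const, Finset.card_univ, nsmul_eq_mul, ← Nat.card_eq_fintype_card (α := X × Bs), Nat.card_prod,
            Nat.cast_mul]
  have h6 : (0 : ℝ) < Nat.card Y := by
    exact_mod_cast Nat.card_pos
  have h7 : (Nat.card {q : X × Bs // Cond q} : ℝ) * Nat.card Y ≤
      2 * ε * (Nat.card X * Nat.card Bs) * Nat.card Y := by linarith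
  exact le_of_mul_le_mul_right h7 h6

end game

end Pool.Agent.Helper43.NK
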