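import Pool.Agent.Helper43.NK.Par
import Pool.Agent.Helper43.NK.Game

/-!
# NK, part B3: the bound in one orbit
-/

set_option autoImplicit false

namespace Pool.Agent.Helper43.NK

open Finset Pool.Agent.Helper99.NQ
open Pool.Agent.Helper96.PH (CB)

open Classical in
theorem prod_card {J Tb Te : Type} [Fintype J] [DecidableEq J] [Fintype Tb] [Fintype Te] (C : J → Tb × Te → Prop) :
    ∏ j, ((univ.filter (C j)).card : ℝ) =
      ∑ e : J → Te, ∑ b : J → Tb, (if ∀ j, C j (b j, e j) then (1 : ℝ) else 0) := by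
  have h2 : ∀ j, ((univ.filter (C j)).card : ℝ) = ∑ p : Tb × Te, (if C j p then (1 : ℝ) else 0) := by
    intro j
    rw [Finset.card_filter, Nat.cast_sum]
    refine Finset.sum_congr rfl fun p _ => ?_
    rw [Nat.cast_ite, Nat.cast_one, Nat.cast_zero]
  rw [Finset.prod_congr rfl fun j _ => h2 j, Finset.prod_univ_sum, Fintype.piFinset_univ]
  calc ∑ f : J → Tb × Te, ∏ j, (if C j (f j) then (1 : ℝ) else 0)
      = ∑ q : (J → Tb) × (J → Te), (if ∀ j, C j (q.1 j, q.2 j) then (1 : ℝ) else 0) := by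
        refine Fintype.sum_equiv (Equiv.arrowProdEquivProdArrow _ _ _) _ _ fun f => ?_
        rw [Finset.prod_boole]
        simp only [mem_univ, true_implies]
        rfl
    _ = ∑ b : J → Tb, ∑ e : J → Te, (if ∀ j, C j (b j, e j) then (1 : ℝ) else 0) := Fintype.sum_prod_type _
    _ = _ := Finset.sum_comm

section orbit

variable {n D m d w : ℕ} {F B G X : Type} [Field F] [Fintype F] [AddCommGroup B] [Module F B] [Fintype B]
  [AddCommGroup G] [Fintype G] [AddCommGroup X] [Fintype X]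

open Classical in
theorem mem_supp2_iff (e : Fin n → Fin d → F) (v : Fin n) :
    v ∈ Pool.Agent.Helper89.NK.supp2 e ↔ v ∈ supp2 e := by
  rw [Pool.Agent.Helper89.NK.mem_supp2]
  unfold supp2
  rw [mem_filter]
  constructor
  · intro h
    obtain ⟨i, hi, j, hj, hij⟩ := Finset.one_lt_card.1 h
    exact ⟨mem_univ _, i, j, hij, (mem_filter.1 hi).2, (mem_filter.1 hj).2⟩
  · rintro ⟨-, i, j, hij, hi, hj⟩
    exact Finset.one_lt_card.2 ⟨i, mem_filter.2 ⟨mem_univ _, hi⟩, j, mem_filter.2 ⟨mem_univ _, hj⟩, hij⟩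

open Classical in
/-- The product of the numbers of arrows, summed over all `x`, for one chain. -/
theorem sum_prod_in2 (hG : 2 ≤ Fintype.card G)
    (Dl : Fin (w + 1) → (Fin n → Fin d → Word D m B) → ((Fin n → Fin d → F) →+ X))
    (lx : X →+ (Fin n × Fin m → B)) (cs : Fin (w + 1) → Fin n → Fin n × Fin m → Finset (Fin D × Fin m))
    (own : Fin (w + 1) → Fin n → Fin m → Fin D × Fin m) (hS : Setting Dl lx cs own)
    (U : Fin (w + 1) → X → Fin n → Finset (Word D m B)) (E : Finset X) (t0 : Fin n × Fin m → B) (γ : B → G) (a : G)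
    (hcl : ∀ (x : X) (b : Fin (w + 1) → Fin n → Fin d → Word D m B) (e : Fin (w + 1) → Fin n → Fin d → F),
      (∀ l, x - Dl l (b l) (e l) ∈ E ∧ ∀ u j, e l u j ≠ 0 → b l u j ∈ U l (x - Dl l (b l) (e l)) u) →
      ∑ v, γ (t0 v + lx x v) = a)
    {ε : ℝ} (hε : 0 ≤ ε) (K : Fin (w + 2) → Finset (Fin n)) (hanti : ∀ j : Fin (w + 1), K j.succ ⊆ K j.castSucc)
    (hCB : CB γ ((K (Fin.last (w + 1)) : Finset (Fin n)) × Fin m) (2 * w + 1) ε) :
    ∑ x : X, ∏ j : Fin (w + 1),
      (Pool.Agent.Helper89.NK.in2 (Dl j) (U j) E (K j.castSucc) (K j.succ) x : ℝ) ≤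
      (Fintype.card F : ℝ) ^ (d * n * (w + 1)) *
        (2 * ε * (Nat.card X * Nat.card (Fin (w + 1) → Fin n → Fin d → Word D m B))) := by
  set Cd : Fin (w + 1) → X → (Fin n → Fin d → Word D m B) × (Fin n → Fin d → F) → Prop := fun j x p =>
    (∀ v, v ∉ K j.castSucc → p.2 v = 0) ∧ Pool.Agent.Helper89.NK.supp2 p.2 = K j.succ ∧
      x - Dl j p.1 p.2 ∈ E ∧ ∀ v ∈ K j.castSucc, ∀ i, p.1 v i ∈ U j (x - Dl j p.1 p.2) v with hCd
  have h1 : ∀ x : X, ∏ j : Fin (w + 1),
      (Pool.Agent.Helper89.NK.in2 (Dl j) (U j) E (K j.castSucc) (K j.succ) x : ℝ) =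
      ∑ e : Fin (w + 1) → Fin n → Fin d → F, ∑ b : Fin (w + 1) → Fin n → Fin d → Word D m B,
        (if ∀ j, Cd j x (b j, e j) then (1 : ℝ) else 0) := by
    intro x
    refine Eq.trans (Finset.prod_congr rfl fun j _ => ?_) ((prod_card (fun j p => Cd j x p)).trans
      (Finset.sum_congr rfl fun e _ => Finset.sum_congr rfl fun b _ => ?_))
    · congr 1
      unfold Pool.Agent.Helper89.NK.in2
      refine congrArg Finset.card ?_
      congr!
    · by_cases h : ∀ j, Cd j x (b j, e j)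
      · rw [if_pos h, if_pos h]
      · rw [if_neg h, if_neg h]
  simp_rw [h1]
  rw [Finset.sum_comm]
  have hcardE : Fintype.card (Fin (w + 1) → Fin n → Fin d → F) = Fintype.card F ^ (d * n * (w + 1)) := by
    rw [Fintype.card_fun, Fintype.card_fun, Fintype.card_fun, Fintype.card_fin, Fintype.card_fin, Fintype.card_fin,
      ← pow_mul, ← pow_mul]
    congr 1
    ring
  calc ∑ e : Fin (w + 1) → Fin n → Fin d → F, ∑ x : X, ∑ b : Fin (w + 1) → Fin n → Fin d → Word D m B,
        (if ∀ j, Cd j x (b j, e j) then (1 : ℝ) else 0)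
      ≤ ∑ _e : Fin (w + 1) → Fin n → Fin d → F,
        2 * ε * (Nat.card X * Nat.card (Fin (w + 1) → Fin n → Fin d → Word D m B)) := by
        refine Finset.sum_le_sum fun e _ => ?_
        by_cases he : ∀ j, (∀ v, v ∉ K j.castSucc → e j v = 0) ∧ Pool.Agent.Helper89.NK.supp2 (e j) = K j.succ
        · have hmono : ∀ (k : ℕ) (hk : k < w + 2), K (Fin.last (w + 1)) ⊆ K ⟨k, hk⟩ := by
            intro k hk
            induction h : w + 1 - k generalizing k with
            | zero =>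
              have h3 : (⟨k, hk⟩ : Fin (w + 2)) = Fin.last (w + 1) := Fin.ext (by simp only [Fin.val_last]; omega)
              rw [h3]
            | succ i ih =>
              have h3 := ih (k + 1) (by omega) (by omega)
              exact h3.trans (hanti ⟨k, by omega⟩)
          have hg := game (G := G) hG Dl lx cs own hS U E t0 γ a (fun j => K j.castSucc) e (K (Fin.last (w + 1)))
            (fun l u hu => by
              rw [← mem_supp2_iff, (he l).2]
              exact hmono (l.1 + 1) (by omega) hu)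
            (fun x b hb => hcl x b e fun l => ⟨(hb l).1, fun u j hne => (hb l).2 u (by
              by_contra hu
              exact hne (by rw [(he l).1 u hu]; rfl)) j⟩) hCB
          refine le_trans (le_of_eq ?_) hg
          rw [← Fintype.sum_prod_type', Finset.sum_boole, Nat.card_eq_fintype_card, Fintype.card_subtype]
          congr 2
          ext p
          simp only [mem_filter, mem_univ, true_and]
          constructor
          · exact fun h j => ⟨(h j).2.2.1, (h j).2.2.2⟩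
          · exact fun h j => ⟨(he j).1, (he j).2, (h j).1, (h j).2⟩
        · refine le_trans (le_of_eq ?_) (show (0 : ℝ) ≤ _ by positivity)
          refine Finset.sum_eq_zero fun x _ => Finset.sum_eq_zero fun b _ => ?_
          rw [if_neg]
          exact fun h => he fun j => ⟨(h j).1, (h j).2.1⟩
    _ = _ := by
        rw [Finset.sum_const, Finset.card_univ, hcardE, nsmul_eq_mul, Nat.cast_pow]

open Classical in
/-- The bound in one orbit. -/
theorem orbit_bound (hG : 2 ≤ Fintype.card G)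
    (Dl : Fin (w + 1) → (Fin n → Fin d → Word D m B) → ((Fin n → Fin d → F) →+ X))
    (lx : X →+ (Fin n × Fin m → B)) (cs : Fin (w + 1) → Fin n → Fin n × Fin m → Finset (Fin D × Fin m))
    (own : Fin (w + 1) → Fin n → Fin m → Fin D × Fin m) (hS : Setting Dl lx cs own)
    (U : Fin (w + 1) → X → Fin n → Finset (Word D m B)) (E : Finset X) (t0 : Fin n × Fin m → B) (γ : B → G) (a : G)
    (V : Finset (Fin n)) (h M Z κ : ℕ) (hN : Par n D m d w F B h M Z κ V.card)
    (hU : ∀ l, ∀ x ∈ E, ∀ u ∈ V, h ≤ (U l x u).card)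
    (hcl : ∀ (x : X) (b : Fin (w + 1) → Fin n → Fin d → Word D m B) (e : Fin (w + 1) → Fin n → Fin d → F),
      (∀ l, x - Dl l (b l) (e l) ∈ E ∧ ∀ u j, e l u j ≠ 0 → b l u j ∈ U l (x - Dl l (b l) (e l)) u) →
      ∑ v, γ (t0 v + lx x v) = a)
    {ε : ℝ} (hε : 0 ≤ ε) (hCB : ∀ K : Finset (Fin n), κ ≤ K.card → CB γ (K × Fin m) (2 * w + 1) ε) :
    (E.card : ℝ) ≤ errB n d w Z (Fintype.card F) ((h : ℝ) / Fintype.card (Word D m B)) ε * Nat.card X := by
  set L := Fintype.card (Word D m B) with hLdef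
  set q := Fintype.card F with hqdef
  set R := h ^ (d * n) / 2 ^ n with hRdef
  have hd := hN.d_pos
  have hh := hN.two_le
  have hL0 : 0 < L := Fintype.card_pos
  have hq0 : 0 < q := Fintype.card_pos
  have hZ0 := hN.Z_pos
  have h2n : 2 ^ n ≤ h ^ (d * n) := by
    calc 2 ^ n ≤ h ^ n := Nat.pow_le_pow_left hh n
      _ ≤ h ^ (d * n) := Nat.pow_le_pow_right (by omega) (Nat.le_mul_of_pos_left n hd)
  have hR0 : 0 < R := Nat.div_pos h2n (by positivity)
  have hRn : h ^ (d * n) ≤ 4 ^ n * R := by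
    rcases Nat.eq_zero_or_pos n with hn | hn
    · rw [hRdef, hn]
      simp
    · have h1 := Nat.div_add_mod (h ^ (d * n)) (2 ^ n)
      have h2 := Nat.mod_lt (h ^ (d * n)) (show 0 < 2 ^ n by positivity)
      have h3 : 2 ^ n ≤ 2 ^ n * R := Nat.le_mul_of_pos_right _ hR0
      rw [← hRdef] at h1
      have h4 : h ^ (d * n) ≤ 2 * (2 ^ n * R) := by omega
      have h5 : (4 : ℕ) ^ n = 2 ^ n * 2 ^ n := by
        rw [← mul_pow]
        norm_num
      have h6 : 2 ≤ 2 ^ n := by
        calc 2 = 2 ^ 1 := by norm_num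
          _ ≤ 2 ^ n := Nat.pow_le_pow_right (by norm_num) hn
      calc h ^ (d * n) ≤ 2 * (2 ^ n * R) := h4
        _ ≤ 2 ^ n * (2 ^ n * R) := Nat.mul_le_mul_right _ h6
        _ = 4 ^ n * R := by rw [h5, mul_assoc]
  have hρ : (0 : ℝ) < (h : ℝ) / L := by positivity
  have hfac : (0 : ℝ) ≤ (8 ^ n * (q : ℝ) ^ (d * n) / ((h : ℝ) / L) ^ (d * n)) ^ (w + 1) := by positivity
  -- every chain is a long game
  have hsum : ∀ E' : Finset X, (∀ x ∈ E', ∃ K : Fin (w + 1 + 1) → Finset (Fin n), K 0 = V ∧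
      κ ≤ (K (Fin.last (w + 1))).card ∧ ∀ j : Fin (w + 1), K j.succ ⊆ K j.castSucc ∧
        R ≤ Pool.Agent.Helper89.NK.in2 (Dl j) (U j) E (K j.castSucc) (K j.succ) x) →
      (E'.card : ℝ) ≤ 2 * ε * (8 ^ n * (q : ℝ) ^ (d * n) / ((h : ℝ) / L) ^ (d * n)) ^ (w + 1) * Nat.card X := by
    intro E' hE'
    let cns : (Fin (w + 1) → Finset (Fin n)) → Fin (w + 1 + 1) → Finset (Fin n) := fun t => Fin.cons V t
    let Ts : Finset (Fin (w + 1) → Finset (Fin n)) := univ.filter fun t =>
      κ ≤ (cns t (Fin.last (w + 1))).card ∧ ∀ j : Fin (w + 1), cns t j.succ ⊆ cns t j.castSucc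
    have h1 : ∀ x ∈ E', (R : ℝ) ^ (w + 1) ≤ ∑ t ∈ Ts, ∏ j : Fin (w + 1),
        (Pool.Agent.Helper89.NK.in2 (Dl j) (U j) E (cns t j.castSucc) (cns t j.succ) x : ℝ) := by
      intro x hx
      obtain ⟨K, hK0, hKκ, hK⟩ := hE' x hx
      have hKt : cns (fun j => K j.succ) = K := by
        have h2 := Fin.cons_self_tail K
        rw [hK0] at h2
        exact h2
      have hmem : (fun j => K j.succ) ∈ Ts := by
        rw [mem_filter, hKt]
        exact ⟨mem_univ _, hKκ, fun j => (hK j).1⟩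
      refine le_trans ?_ (Finset.single_le_sum (f := fun t => ∏ j : Fin (w + 1),
        (Pool.Agent.Helper89.NK.in2 (Dl j) (U j) E (cns t j.castSucc) (cns t j.succ) x : ℝ))
        (fun t _ => Finset.prod_nonneg fun j _ => Nat.cast_nonneg _) hmem)
      rw [hKt]
      calc (R : ℝ) ^ (w + 1) = ∏ _j : Fin (w + 1), (R : ℝ) := by
            rw [Finset.prod_const, Finset.card_univ, Fintype.card_fin]
        _ ≤ _ := Finset.prod_le_prod (fun j _ => Nat.cast_nonneg _) fun j _ => by exact_mod_cast (hK j).2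
    have hBs : (Nat.card (Fin (w + 1) → Fin n → Fin d → Word D m B) : ℝ) = ((L : ℝ) ^ (d * n)) ^ (w + 1) := by
      rw [Nat.card_eq_fintype_card, Fintype.card_fun, Fintype.card_fun, Fintype.card_fun, Fintype.card_fin,
        Fintype.card_fin, Fintype.card_fin, ← hLdef]
      push_cast
      rw [pow_mul (L : ℝ) d n]
    have hTs : (Ts.card : ℝ) ≤ (2 ^ n) ^ (w + 1) := by
      have h2 : Ts.card ≤ Fintype.card (Fin (w + 1) → Finset (Fin n)) := Finset.card_le_univ _
      rw [Fintype.card_fun, Fintype.card_finset, Fintype.card_fin, Fintype.card_fin] at h2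
      exact_mod_cast h2
    have h2 : (E'.card : ℝ) * (R : ℝ) ^ (w + 1) ≤ (2 ^ n) ^ (w + 1) * ((q : ℝ) ^ (d * n * (w + 1)) *
        (2 * ε * (Nat.card X * ((L : ℝ) ^ (d * n)) ^ (w + 1)))) := by
      calc (E'.card : ℝ) * (R : ℝ) ^ (w + 1) = ∑ _x ∈ E', (R : ℝ) ^ (w + 1) := by
            rw [Finset.sum_const, nsmul_eq_mul]
        _ ≤ ∑ x ∈ E', ∑ t ∈ Ts, ∏ j : Fin (w + 1),
              (Pool.Agent.Helper89.NK.in2 (Dl j) (U j) E (cns t j.castSucc) (cns t j.succ) x : ℝ) :=
            Finset.sum_le_sum h1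
        _ = ∑ t ∈ Ts, ∑ x ∈ E', ∏ j : Fin (w + 1),
              (Pool.Agent.Helper89.NK.in2 (Dl j) (U j) E (cns t j.castSucc) (cns t j.succ) x : ℝ) := Finset.sum_comm
        _ ≤ ∑ t ∈ Ts, ∑ x : X, ∏ j : Fin (w + 1),
              (Pool.Agent.Helper89.NK.in2 (Dl j) (U j) E (cns t j.castSucc) (cns t j.succ) x : ℝ) := by
            refine Finset.sum_le_sum fun t _ => ?_
            exact Finset.sum_le_sum_of_subset_of_nonneg (Finset.subset_univ _)
              fun x _ _ => Finset.prod_nonneg fun j _ => Nat.cast_nonneg _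
        _ ≤ ∑ _t ∈ Ts, (q : ℝ) ^ (d * n * (w + 1)) *
              (2 * ε * (Nat.card X * Nat.card (Fin (w + 1) → Fin n → Fin d → Word D m B))) := by
            refine Finset.sum_le_sum fun t ht => ?_
            have ht2 := (mem_filter.1 ht).2
            exact sum_prod_in2 hG Dl lx cs own hS U E t0 γ a hcl hε (cns t) ht2.2 (hCB _ ht2.1)
        _ = Ts.card * ((q : ℝ) ^ (d * n * (w + 1)) * (2 * ε * (Nat.card X * ((L : ℝ) ^ (d * n)) ^ (w + 1)))) := by
            rw [Finset.sum_const, nsmul_eq_mul, hBs]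
        _ ≤ _ := mul_le_mul_of_nonneg_right hTs (by positivity)
    have hRp : (0 : ℝ) < (R : ℝ) ^ (w + 1) := by positivity
    rw [← mul_le_mul_iff_of_pos_right hRp]
    refine h2.trans ?_
    have h3 : (L : ℝ) ^ (d * n) ≤ 4 ^ n / ((h : ℝ) / L) ^ (d * n) * R := by
      rw [div_pow, div_div_eq_mul_div, div_mul_eq_mul_div, le_div_iff₀ (by positivity)]
      have h4 : (h : ℝ) ^ (d * n) ≤ 4 ^ n * R := by exact_mod_cast hRn
      calc (L : ℝ) ^ (d * n) * (h : ℝ) ^ (d * n) ≤ (L : ℝ) ^ (d * n) * (4 ^ n * R) :=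
            mul_le_mul_of_nonneg_left h4 (by positivity)
        _ = 4 ^ n * (L : ℝ) ^ (d * n) * R := by ring
    have h5 : ((L : ℝ) ^ (d * n)) ^ (w + 1) ≤ (4 ^ n / ((h : ℝ) / L) ^ (d * n) * R) ^ (w + 1) :=
      pow_le_pow_left₀ (by positivity) h3 _
    have h8 : (8 : ℝ) ^ n = 2 ^ n * 4 ^ n := by
      rw [← mul_pow]
      norm_num
    calc (2 ^ n) ^ (w + 1) * ((q : ℝ) ^ (d * n * (w + 1)) *
          (2 * ε * (Nat.card X * ((L : ℝ) ^ (d * n)) ^ (w + 1))))
        ≤ (2 ^ n) ^ (w + 1) * ((q : ℝ) ^ (d * n * (w + 1)) *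
          (2 * ε * (Nat.card X * (4 ^ n / ((h : ℝ) / L) ^ (d * n) * R) ^ (w + 1)))) := by
          refine mul_le_mul_of_nonneg_left (mul_le_mul_of_nonneg_left (mul_le_mul_of_nonneg_left
            (mul_le_mul_of_nonneg_left h5 (by positivity)) (by positivity)) (by positivity)) (by positivity)
      _ = 2 * ε * (8 ^ n * (q : ℝ) ^ (d * n) / ((h : ℝ) / L) ^ (d * n)) ^ (w + 1) * Nat.card X * R ^ (w + 1) := by
          rw [h8, pow_mul]
          have h9 : (2 ^ n * 4 ^ n * (q : ℝ) ^ (d * n) / ((h : ℝ) / L) ^ (d * n)) =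
              2 ^ n * (q : ℝ) ^ (d * n) * (4 ^ n / ((h : ℝ) / L) ^ (d * n)) := by ring
          rw [h9, mul_pow, mul_pow, mul_pow]
          ring
  obtain ⟨Bad, hBad, hch⟩ := Pool.Agent.Helper89.NK.chain (w + 1) Dl U E V h M R Z κ (by omega) hN.le_card hN.M_pos
    hN.chain hU
    (by rw [Fintype.card_fin, Fintype.card_fin, hRdef]; exact Nat.mul_div_le _ _) (fun K0 _ hK0 => by
      have := hN.small K0 hK0
      convert this)
  have hb : (Bad.card : ℝ) ≤ (w + 1) * 2 ^ n / Z * Nat.card X := by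
    rw [div_mul_eq_mul_div, le_div_iff₀ (by exact_mod_cast hZ0)]
    rw [Fintype.card_fin] at hBad
    rw [Nat.card_eq_fintype_card]
    exact_mod_cast hBad
  have hgood := hsum (E \ Bad) (fun x hx => by
    obtain ⟨hx1, hx2⟩ := Finset.mem_sdiff.1 hx
    obtain ⟨K, hK0, hKκ, hK⟩ := hch x hx1 hx2
    exact ⟨K, hK0, hKκ, fun j => ⟨(hK j).1, (hK j).2.2⟩⟩)
  have hsplit : (E.card : ℝ) ≤ Bad.card + (E \ Bad).card := by
    have h1 : E.card ≤ (Bad ∪ (E \ Bad)).card := by
      refine Finset.card_le_card fun x hx => ?_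
      by_cases hxB : x ∈ Bad
      · exact Finset.mem_union_left _ hxB
      · exact Finset.mem_union_right _ (Finset.mem_sdiff.2 ⟨hx, hxB⟩)
    have h2 := Finset.card_union_le Bad (E \ Bad)
    exact_mod_cast h1.trans h2
  unfold errB
  rw [add_mul]
  linarith

end orbit

end Pool.Agent.Helper43.NK
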