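import Pool.Agent.Helper43.NK.Defs
import Pool.Agent.Helper89.NK.Chain

/-!
# NK: the numbers of the orbit bound
-/

namespace Pool.Agent.Helper43.NK

open Finset Pool.Agent.Helper99.NQ

open Classical in
/-- The numbers: `h` places of a block are not read, `M` is the loss of nodes in one step of the chain, `κ` the number of nodes
at the end of the chain, `v` at its start, and the part of the inputs without a chain is at most `(w + 1) 2 ^ n / Z`. -/
structure Par (n D m d w : ℕ) (F B : Type) [Field F] [Fintype F] [Fintype B] (h M Z κ v : ℕ) : Prop where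
  two_le : 2 ≤ h
  le_card : h ≤ Fintype.card (Word D m B)
  d_pos : 0 < d
  M_pos : 0 < M
  Z_pos : 0 < Z
  chain : κ * M ^ (w + 1) ≤ v
  small : ∀ K0 : Finset (Fin n), κ ≤ K0.card →
    4 * ((Pool.Agent.Helper89.NK.Sm (δ := Fin d) (F := F) K0 M).card + 1) *
      Fintype.card (Word D m B) ^ (Fintype.card (Fin d) * K0.card) * Z ≤
      (h * Fintype.card F) ^ (Fintype.card (Fin d) * K0.card)

/-- The error in one orbit: `q` symbols, `r` the least part of a block which is not read, `ε` from the game. -/
noncomputable def errB (n d w Z : ℕ) (q r ε : ℝ) : ℝ :=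
  (w + 1) * 2 ^ n / Z + 2 * ε * (8 ^ n * q ^ (d * n) / r ^ (d * n)) ^ (w + 1)

end Pool.Agent.Helper43.NK
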